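import Pool.Agent.Lib.MP_21a058_co.Lim2.Comp

/-! MP_21a058_co: crossing components at every scale; the atoms of a component are generated by
at most `p` of its members. -/

set_option linter.unusedSectionVars false
set_option linter.unusedVariables false

namespace Pool.Agent.Lib.MP_21a058_co.Lim3

open Finset Pool.Agent.Lib.MP_21a058_co.Thin
open Pool.Agent.Lib.MP_21a058_co.Lim (Crs rel lk comp mem_comp self_mem_comp comp_ind atom
  mem_atom self_mem_atom atom_eq atom_sub atom_lam atoms_laminar thr)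
open Pool.Agent.Lib.MP_21a058_co.Lim2 (sum_dl_le)
open scoped Classical

variable {V E : Type} [Fintype V]

/-- if `d` is constant on the classes of `c`, it has at most as many values -/
theorem card_image_of (c d : V → ℕ) (h : ∀ x y, c x = c y → d x = d y) :
    (univ.image d).card ≤ (univ.image c).card := by
  refine card_le_card_of_surjOn (fun i => if h : ∃ x, c x = i then
    d (Classical.choose h) else 0) ?_
  intro A hA
  obtain ⟨x, hx, rfl⟩ := mem_image.1 hA
  refine ⟨c x, mem_image_of_mem c hx, ?_⟩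
  have h' : ∃ y, c y = c x := ⟨x, rfl⟩
  show (if h : ∃ y, c y = c x then d (Classical.choose h) else 0) = _
  rw [dif_pos h']
  exact h _ _ (Classical.choose_spec h')

/-- **generators**: the members of `C` are unions of at most `p` classes, so at most `p` of them
separate everything that `C` separates. -/
theorem gen (C : Finset (Finset V)) (c : V → ℕ) (p : ℕ) (hc : (univ.image c).card ≤ p)
    (hcl : ∀ Z ∈ C, ∀ x y, c x = c y → (x ∈ Z ↔ y ∈ Z)) :
    ∃ C' ⊆ C, C'.card ≤ p ∧
      ∀ x y, (∀ Z ∈ C', (x ∈ Z ↔ y ∈ Z)) → ∀ Z ∈ C, (x ∈ Z ↔ y ∈ Z) := by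
  rcases isEmpty_or_nonempty V with hV | hV
  · exact ⟨∅, empty_subset _, Nat.zero_le _, fun x => (hV.false x).elim⟩
  have key : ∀ m : ℕ, ∃ C' ⊆ C, C'.card ≤ m ∧
      ((∀ x y, (∀ Z ∈ C', (x ∈ Z ↔ y ∈ Z)) → ∀ Z ∈ C, (x ∈ Z ↔ y ∈ Z)) ∨
        ∃ d : V → ℕ, m + 1 ≤ (univ.image d).card ∧
          ∀ x y, d x = d y ↔ ∀ Z ∈ C', (x ∈ Z ↔ y ∈ Z)) := by
    intro m
    induction m with
    | zero =>
      refine ⟨∅, empty_subset _, le_rfl, Or.inr ⟨fun _ => 0, ?_, fun x y => ?_⟩⟩
      · obtain ⟨x⟩ := hV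
        exact card_pos.2 ⟨0, mem_image.2 ⟨x, mem_univ _, rfl⟩⟩
      · exact ⟨fun _ Z hZ => absurd hZ (notMem_empty Z), fun _ => rfl⟩
    | succ m ih =>
      obtain ⟨C', h1, h2, h3⟩ := ih
      rcases h3 with h3 | ⟨d, h3, h4⟩
      · exact ⟨C', h1, h2.trans (Nat.le_succ m), Or.inl h3⟩
      · by_cases h5 : ∀ x y, (∀ Z ∈ C', (x ∈ Z ↔ y ∈ Z)) → ∀ Z ∈ C, (x ∈ Z ↔ y ∈ Z)
        · exact ⟨C', h1, h2.trans (Nat.le_succ m), Or.inl h5⟩
        · have h5' : ∃ x y, (∀ Z ∈ C', (x ∈ Z ↔ y ∈ Z)) ∧ ∃ Z ∈ C, ¬ (x ∈ Z ↔ y ∈ Z) := by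
            by_contra hh
            refine h5 fun x y hxy Z hZ => ?_
            by_contra hne
            exact hh ⟨x, y, hxy, Z, hZ, hne⟩
          obtain ⟨x0, y0, hxy, Z, hZ, hne⟩ := h5'
          obtain ⟨d', hd'⟩ : ∃ d' : V → ℕ, d' = fun x => 2 * d x + (if x ∈ Z then 1 else 0) :=
            ⟨_, rfl⟩
          have hcc : ∀ x y, d' x = d' y ↔ d x = d y ∧ (x ∈ Z ↔ y ∈ Z) := by
            intro x y
            simp only [hd']
            by_cases hx : x ∈ Z <;> by_cases hy : y ∈ Z <;>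
              simp only [hx, hy, if_true, if_false] <;> constructor <;> intro hh
            · exact ⟨by omega, by simp⟩
            · omega
            · exact absurd hh (by omega)
            · exact absurd hh.2 (by simp)
            · exact absurd hh (by omega)
            · exact absurd hh.2 (by simp)
            · exact ⟨by omega, by simp⟩
            · omega
          refine ⟨insert Z C', ?_, ?_, Or.inr ⟨d', ?_, fun x y => ?_⟩⟩
          · intro W hW
            rcases mem_insert.1 hW with rfl | hW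
            · exact hZ
            · exact h1 hW
          · exact (card_insert_le _ _).trans (by omega)
          · have e1 : (univ.image d').image (fun i => i / 2) = univ.image d := by
              rw [image_image]
              refine image_congr fun x _ => ?_
              simp only [Function.comp, hd']
              split_ifs <;> omega
            have e2 : ((univ.image d').image (fun i => i / 2)).card ≤ (univ.image d').card :=
              card_image_le
            have e3 : ((univ.image d').image (fun i => i / 2)).card ≠ (univ.image d').card := by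
              intro hh
              have e4 := card_image_iff.1 hh
              have e6 : d x0 = d y0 := (h4 x0 y0).2 hxy
              have e5 : d' x0 = d' y0 := e4 (by simp) (by simp) (by
                simp only [hd', e6]
                split_ifs <;> omega)
              exact hne ((hcc x0 y0).1 e5).2
            rw [e1] at e2 e3
            omega
          · rw [hcc, h4]
            constructor
            · rintro ⟨k1, k2⟩ W hW
              rcases mem_insert.1 hW with rfl | hW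
              · exact k2
              · exact k1 W hW
            · intro k
              exact ⟨fun W hW => k W (mem_insert_of_mem hW), k Z (mem_insert_self _ _)⟩
  obtain ⟨C', h1, h2, h3⟩ := key p
  refine ⟨C', h1, h2, ?_⟩
  rcases h3 with h3 | ⟨d, h3, h4⟩
  · exact h3
  · exfalso
    have h5 := card_image_of c d fun x y hxy => (h4 x y).2 fun Z hZ => hcl Z (h1 hZ) x y hxy
    omega

/-- The cut of an atom is covered by the cuts of the generators. -/
theorem dl_atom_sub' (v w : E → V) (W : Finset E) (C C' : Finset (Finset V))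
    (hg : ∀ x y, (∀ Z ∈ C', (x ∈ Z ↔ y ∈ Z)) → ∀ Z ∈ C, (x ∈ Z ↔ y ∈ Z)) (x : V) :
    dl v w W (atom C x) ⊆ C'.biUnion (fun Z => dl v w W Z) := by
  intro e he
  obtain ⟨h1, h2⟩ := mem_filter.1 he
  rw [mem_biUnion]
  by_contra hcon
  push Not at hcon
  have h3' : ∀ Z ∈ C', (v e ∈ Z ↔ w e ∈ Z) := by
    intro Z hZ
    by_contra h4
    exact hcon Z hZ (mem_filter.2 ⟨h1, h4⟩)
  have h3 := hg _ _ h3'
  exact h2 ⟨fun h4 => mem_atom.2 fun Z hZ => ((mem_atom.1 h4) Z hZ).trans (h3 Z hZ),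
    fun h4 => mem_atom.2 fun Z hZ => ((mem_atom.1 h4) Z hZ).trans (h3 Z hZ).symm⟩

/-- MULTISCALE ATOMS. -/
theorem multi (v w : E → V) (r : V) (W : Finset E) (N : Finset (Finset V)) (p : ℕ)
    (hr : ∀ Y ∈ N, r ∉ Y) (hN : ∀ Y ∈ N, Y.Nonempty)
    (hA1 : ∀ Y ∈ N, ∃ c : V → ℕ, (univ.image c).card ≤ p ∧
      (∀ x y, c x = c y → (x ∈ Y ↔ y ∈ Y)) ∧
      ∀ Z ∈ N, ∀ Z' ∈ N, (∀ x y, c x = c y → (x ∈ Z ↔ y ∈ Z)) → Crs Z Z' →
        ∀ x y, c x = c y → (x ∈ Z' ↔ y ∈ Z')) :
    ∃ LL : Finset (Finset V), (∀ A ∈ LL, A.Nonempty ∧ r ∉ A) ∧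
      (∀ A ∈ LL, ∀ B ∈ LL, A ⊆ B ∨ B ⊆ A ∨ Disjoint A B) ∧
      ∀ Y ∈ N, ∃ P ⊆ LL, P.card ≤ p ∧ (∀ A ∈ P, ∀ B ∈ P, A ≠ B → Disjoint A B) ∧
        P.biUnion id = Y ∧ ∑ A ∈ P, (dl v w W A).card ≤ 2 * (p * (dl v w W Y).card) := by
  obtain ⟨f, hf⟩ : ∃ f : Finset V → ℕ, f = fun Z => (dl v w W Z).card := ⟨_, rfl⟩
  obtain ⟨C, hC⟩ : ∃ C : Finset V → Finset (Finset V), C = fun Y => comp (thr N f Y) Y :=
    ⟨_, rfl⟩
  have hthr : ∀ Y ∈ N, Y ∈ thr N f Y := fun Y hY => mem_filter.2 ⟨hY, le_refl _⟩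
  have hself : ∀ Y ∈ N, Y ∈ C Y := by
    intro Y hY
    rw [hC]
    exact self_mem_comp (hthr Y hY)
  have hCN : ∀ Y, ∀ Z ∈ C Y, Z ∈ N ∧ f Z ≤ f Y := by
    intro Y Z hZ
    rw [hC] at hZ
    exact mem_filter.1 (mem_comp.1 hZ).1
  refine ⟨N.biUnion (fun Y => ((C Y).biUnion id).image (atom (C Y))), ?_, ?_, ?_⟩
  · intro A hA
    obtain ⟨Y, hY, hA⟩ := mem_biUnion.1 hA
    obtain ⟨x, hx, rfl⟩ := mem_image.1 hA
    obtain ⟨Z, hZ, hxZ⟩ := mem_biUnion.1 hx
    exact ⟨⟨x, self_mem_atom _ _⟩, fun h => hr Z (hCN Y Z hZ).1 (atom_sub hZ hxZ h)⟩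
  · intro A hA B hB
    obtain ⟨Y, hY, hA⟩ := mem_biUnion.1 hA
    obtain ⟨x, hx, rfl⟩ := mem_image.1 hA
    obtain ⟨Z, hZ, hxZ⟩ := mem_biUnion.1 hx
    obtain ⟨Y', hY', hB⟩ := mem_biUnion.1 hB
    obtain ⟨x', hx', rfl⟩ := mem_image.1 hB
    obtain ⟨Z', hZ', hxZ'⟩ := mem_biUnion.1 hx'
    rcases le_total (f Y) (f Y') with h | h
    · have hF : thr N f Y ⊆ thr N f Y' := fun Q hQ =>
        mem_filter.2 ⟨(mem_filter.1 hQ).1, (mem_filter.1 hQ).2.trans h⟩
      rw [hC] at hZ hZ' ⊢
      exact atoms_laminar hF ⟨Z, hZ, hxZ⟩ ⟨Z', hZ', hxZ'⟩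
    · have hF : thr N f Y' ⊆ thr N f Y := fun Q hQ =>
        mem_filter.2 ⟨(mem_filter.1 hQ).1, (mem_filter.1 hQ).2.trans h⟩
      rw [hC] at hZ hZ' ⊢
      rcases atoms_laminar hF ⟨Z', hZ', hxZ'⟩ ⟨Z, hZ, hxZ⟩ with h1 | h1 | h1
      · exact Or.inr (Or.inl h1)
      · exact Or.inl h1
      · exact Or.inr (Or.inr h1.symm)
  · intro Y hY
    obtain ⟨c, hc1, hc2, hc3⟩ := hA1 Y hY
    -- all members of the component are unions of classes
    have hcl : ∀ Z ∈ C Y, ∀ x y, c x = c y → (x ∈ Z ↔ y ∈ Z) := by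
      have h0 := hself Y hY
      have hN' := hCN Y
      rw [hC] at h0 hN' ⊢
      refine comp_ind (fun Z => ∀ x y, c x = c y → (x ∈ Z ↔ y ∈ Z)) h0 hc2 ?_
      intro A hA B hB hPA hAB
      exact hc3 A (hN' A hA).1 B (hN' B hB).1 hPA hAB
    have hat : ∀ x y, c x = c y → atom (C Y) x = atom (C Y) y := by
      intro x y hxy
      exact (atom_eq (mem_atom.2 fun Z hZ => hcl Z hZ x y hxy)).symm
    obtain ⟨C', hC', hcardC, hgen⟩ := gen (C Y) c p hc1 hcl
    refine ⟨Y.image (atom (C Y)), ?_, ?_, ?_, ?_, ?_⟩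
    · intro A hA
      obtain ⟨x, hx, rfl⟩ := mem_image.1 hA
      exact mem_biUnion.2 ⟨Y, hY, mem_image.2 ⟨x, mem_biUnion.2 ⟨Y, hself Y hY, hx⟩, rfl⟩⟩
    · -- few atoms
      have h1 : (Y.image (atom (C Y))).card ≤ (Y.image c).card := by
        refine card_le_card_of_surjOn (fun i => if h : ∃ x, c x = i then
          atom (C Y) (Classical.choose h) else ∅) ?_
        intro A hA
        obtain ⟨x, hx, rfl⟩ := mem_image.1 hA
        refine ⟨c x, mem_image_of_mem c hx, ?_⟩
        have h : ∃ y, c y = c x := ⟨x, rfl⟩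
        show (if h : ∃ y, c y = c x then atom (C Y) (Classical.choose h) else ∅) = _
        rw [dif_pos h]
        exact hat _ _ (Classical.choose_spec h)
      exact h1.trans ((card_le_card (image_subset_image (subset_univ _))).trans hc1)
    · intro A hA B hB hAB
      obtain ⟨x, hx, rfl⟩ := mem_image.1 hA
      obtain ⟨y, hy, rfl⟩ := mem_image.1 hB
      rcases atom_lam (C Y) x y with h | h
      · exact absurd h hAB
      · exact h
    · ext x
      rw [mem_biUnion]
      constructor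
      · rintro ⟨A, hA, hx⟩
        obtain ⟨y, hy, rfl⟩ := mem_image.1 hA
        exact atom_sub (hself Y hY) hy hx
      · intro hx
        exact ⟨atom (C Y) x, mem_image_of_mem _ hx, self_mem_atom _ _⟩
    · have h0 : ∑ A ∈ Y.image (atom (C Y)), (dl v w W A).card ≤
          2 * (C'.biUnion (fun Z => dl v w W Z)).card := by
        refine sum_dl_le v w W _ _ ?_ ?_
        · intro A hA B hB hAB
          obtain ⟨x, hx, rfl⟩ := mem_image.1 hA
          obtain ⟨y, hy, rfl⟩ := mem_image.1 hB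
          rcases atom_lam (C Y) x y with h | h
          · exact absurd h hAB
          · exact h
        · intro A hA
          obtain ⟨x, hx, rfl⟩ := mem_image.1 hA
          exact dl_atom_sub' v w W (C Y) C' hgen x
      have h1 : (C'.biUnion (fun Z => dl v w W Z)).card ≤ ∑ Z ∈ C', (dl v w W Z).card :=
        card_biUnion_le
      have h2 : ∑ Z ∈ C', (dl v w W Z).card ≤ ∑ Z ∈ C', (dl v w W Y).card := by
        refine sum_le_sum fun Z hZ => ?_
        have := (hCN Y Z (hC' hZ)).2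
        rw [hf] at this
        exact this
      rw [sum_const, smul_eq_mul] at h2
      have h3 := Nat.mul_le_mul_right (dl v w W Y).card hcardC
      omega

end Pool.Agent.Lib.MP_21a058_co.Lim3
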