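import Mathlib

/-! MP_21a058_co, the limit form with small polynomial constants: the choice of the constants. -/

namespace Pool.Agent.Lib.MP_21a058_co.Lim3

/-- All side conditions on the constants. `p` bounds the number of atoms, `mo` the number of
colours, `A0 = 2 p`; the unit is `H ≥ H0`, the graph has all cuts at least `2 M H`, blocks have
`H` edges; the start costs `E H` trees, `X H` trees are released in a round, `Th H` trees are
given up for strong pieces and the error of a round is `Th H`; cuts have at most `c` fractional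
edges, small blocks at most `H / M`. -/
structure Nums (n p mo A0 M E X Th C9 c H0 : ℕ) : Prop where
  hn : 1 ≤ n
  hp : p = 4 * n
  hmo : mo = p * p + 1
  hA0 : A0 = 2 * p
  hM : M = 737280 * n ^ 7
  hE : n * E = M
  hX : 2 ≤ X
  hXM : 16 * (n * n) * X = M
  hTh : 1 ≤ Th
  hd : 3 * n * (Th + 1) ≤ X
  hnear : 2 * M + p * (p + 1) * (X + 1) < p * E
  heps : 2 * M * (5 * A0) ≤ Th * Th
  hC9 : C9 = 4 * mo * (M * M)
  hc : c = 64 + 16 * C9
  hH0 : H0 = 48 * (mo * M) + 4 * c + 4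

/-- The choice of the constants. -/
theorem exists_nums (n : ℕ) (hn : 1 ≤ n) :
    ∃ p mo A0 M E X Th C9 c H0 : ℕ, Nums n p mo A0 M E X Th C9 c H0 := by
  have h4 : 1 ≤ n ^ 4 := Nat.one_le_pow _ _ hn
  have h5 : 1 ≤ n ^ 5 := Nat.one_le_pow _ _ hn
  refine ⟨4 * n, 4 * n * (4 * n) + 1, 2 * (4 * n), 737280 * n ^ 7, 737280 * n ^ 6,
    46080 * n ^ 5, 7680 * n ^ 4,
    4 * (4 * n * (4 * n) + 1) * (737280 * n ^ 7 * (737280 * n ^ 7)),
    64 + 16 * (4 * (4 * n * (4 * n) + 1) * (737280 * n ^ 7 * (737280 * n ^ 7))),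
    48 * ((4 * n * (4 * n) + 1) * (737280 * n ^ 7)) +
      4 * (64 + 16 * (4 * (4 * n * (4 * n) + 1) * (737280 * n ^ 7 * (737280 * n ^ 7)))) + 4, ?_⟩
  refine ⟨hn, rfl, rfl, rfl, rfl, ?_, ?_, ?_, ?_, ?_, ?_, ?_, rfl, rfl, rfl⟩
  · ring
  · omega
  · ring
  · omega
  · have e1 : 3 * n * (7680 * n ^ 4 + 1) = 23040 * n ^ 5 + 3 * n := by ring
    have e2 : n ≤ n ^ 5 := Nat.le_self_pow (by norm_num) n
    omega
  · have e1 : 2 * (737280 * n ^ 7) + 4 * n * (4 * n + 1) * (46080 * n ^ 5 + 1) =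
        2211840 * n ^ 7 + 184320 * n ^ 6 + 16 * n ^ 2 + 4 * n := by ring
    have e2 : 4 * n * (737280 * n ^ 6) = 2949120 * n ^ 7 := by ring
    have e3 : n ^ 6 ≤ n ^ 7 := Nat.pow_le_pow_right hn (by norm_num)
    have e4 : n ^ 2 ≤ n ^ 7 := Nat.pow_le_pow_right hn (by norm_num)
    have e5 : n ≤ n ^ 7 := Nat.le_self_pow (by norm_num) n
    have e6 : 1 ≤ n ^ 7 := Nat.one_le_pow _ _ hn
    rw [e1, e2]
    omega
  · have e1 : 2 * (737280 * n ^ 7) * (5 * (2 * (4 * n))) = 58982400 * n ^ 8 := by ring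
    have e2 : 7680 * n ^ 4 * (7680 * n ^ 4) = 58982400 * n ^ 8 := by ring
    rw [e1, e2]

variable {n p mo A0 M E X Th C9 c H0 : ℕ}

theorem Nums.M_pos (h : Nums n p mo A0 M E X Th C9 c H0) : 1 ≤ M := by
  rw [h.hM]
  exact Nat.mul_pos (by norm_num) (Nat.one_le_pow _ _ h.hn)

theorem Nums.nE (h : Nums n p mo A0 M E X Th C9 c H0) : n * E ≤ M := le_of_eq h.hE

theorem Nums.nX (h : Nums n p mo A0 M E X Th C9 c H0) : n * X ≤ M := by
  have h1 : n * X ≤ 16 * (n * n) * X := by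
    refine Nat.mul_le_mul_right _ ?_
    have := Nat.le_mul_of_pos_right n h.hn
    omega
  exact h1.trans (le_of_eq h.hXM)

/-- the size of a small block -/
theorem Nums.mo_le (h : Nums n p mo A0 M E X Th C9 c H0) {H : ℕ} (hH : H0 ≤ H) :
    48 * mo ≤ H / M := by
  rw [Nat.le_div_iff_mul_le h.M_pos]
  have := h.hH0
  have e : 48 * mo * M = 48 * (mo * M) := by ring
  omega

/-- the rows of blocks -/
theorem Nums.rows (h : Nums n p mo A0 M E X Th C9 c H0) {H t : ℕ} (hH : H0 ≤ H)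
    (ht : t ≤ M * H) : 2 * mo * t ≤ C9 * (H / M) := by
  have h1 : M ≤ H := by
    have h2 := h.hH0
    have h3 : 1 ≤ mo := by
      rw [h.hmo]
      exact Nat.le_add_left 1 _
    have h4 : M ≤ mo * M := Nat.le_mul_of_pos_left _ h3
    omega
  have h2 : H < M * (H / M + 1) := Nat.lt_mul_div_succ H h.M_pos
  have h3 : M * 1 ≤ M * (H / M) :=
    Nat.mul_le_mul_left _ (Nat.div_pos h1 h.M_pos)
  have h4 : H ≤ 2 * (M * (H / M)) := by
    have : M * (H / M + 1) = M * (H / M) + M := by ring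
    omega
  rw [h.hC9]
  calc 2 * mo * t ≤ 2 * mo * (M * H) := Nat.mul_le_mul_left _ ht
    _ = 2 * mo * M * H := by ring
    _ ≤ 2 * mo * M * (2 * (M * (H / M))) := Nat.mul_le_mul_left _ h4
    _ = 4 * mo * (M * M) * (H / M) := by ring

/-- the numbers of the selection -/
theorem Nums.sel_num (h : Nums n p mo A0 M E X Th C9 c H0) {H t w : ℕ} (ht : t ≤ M * H)
    (hw : t + Th * H ≤ w) :
    2 * p * Th * (2 * H * H + H * H + 2 * (H / M) * t) ≤ 5 * A0 * H * (w - t) := by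
  have h1 : Th * H ≤ w - t := by omega
  have h2 : 2 * (H / M) * t ≤ 2 * (H * H) := by
    calc 2 * (H / M) * t ≤ 2 * (H / M) * (M * H) := Nat.mul_le_mul_left _ ht
      _ = 2 * (H / M * M * H) := by ring
      _ ≤ 2 * (H * H) :=
        Nat.mul_le_mul_left _ (Nat.mul_le_mul_right _ (Nat.div_mul_le_self H M))
  rw [← h.hA0]
  calc A0 * Th * (2 * H * H + H * H + 2 * (H / M) * t)
      ≤ A0 * Th * (2 * H * H + H * H + 2 * (H * H)) :=
        Nat.mul_le_mul_left _ (Nat.add_le_add_left h2 _)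
    _ = 5 * A0 * H * (Th * H) := by ring
    _ ≤ _ := Nat.mul_le_mul_left _ h1

/-- The size of the constants. -/
theorem Nums.size (h : Nums n p mo A0 M E X Th C9 c H0) :
    2 * (M * H0) + 2 * M + 2 ≤ 2 ^ 78 * n ^ 23 := by
  have hn := h.hn
  have hM1 := h.M_pos
  have hM : M ≤ 2 ^ 20 * n ^ 7 := by
    rw [h.hM]
    exact Nat.mul_le_mul_right _ (by norm_num)
  have hmo : mo ≤ 32 * n ^ 2 := by
    have h1 : 1 ≤ n ^ 2 := Nat.one_le_pow _ _ hn
    rw [h.hmo, h.hp]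
    have e : 4 * n * (4 * n) = 16 * n ^ 2 := by ring
    omega
  have hmo1 : 1 ≤ mo := by
    rw [h.hmo]
    exact Nat.le_add_left 1 _
  have hH0 : H0 ≤ 1024 * (mo * (M * M)) := by
    have e1 : H0 = 48 * (mo * M) + 260 + 256 * (mo * (M * M)) := by
      rw [h.hH0, h.hc, h.hC9]
      ring
    have e2 : mo * M ≤ mo * (M * M) :=
      Nat.mul_le_mul_left _ (Nat.le_mul_of_pos_right _ hM1)
    have e3 : 1 ≤ mo * (M * M) := Nat.mul_pos hmo1 (Nat.mul_pos hM1 hM1)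
    omega
  have hMH : M * H0 ≤ 2 ^ 75 * n ^ 23 := by
    calc M * H0 ≤ 2 ^ 20 * n ^ 7 *
          (1024 * (32 * n ^ 2 * (2 ^ 20 * n ^ 7 * (2 ^ 20 * n ^ 7)))) :=
          Nat.mul_le_mul hM (hH0.trans (Nat.mul_le_mul_left _ (Nat.mul_le_mul hmo
            (Nat.mul_le_mul hM hM))))
      _ = 2 ^ 75 * n ^ 23 := by ring
  have h23 : 1 ≤ n ^ 23 := Nat.one_le_pow _ _ hn
  have hMM : M ≤ 2 ^ 75 * n ^ 23 :=
    hM.trans (Nat.mul_le_mul (by norm_num) (Nat.pow_le_pow_right hn (by norm_num)))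
  have e5 : 2 ^ 78 * n ^ 23 = 8 * (2 ^ 75 * n ^ 23) := by ring
  rw [e5]
  have h106 : 1 ≤ 2 ^ 75 * n ^ 23 := Nat.mul_pos (by norm_num) h23
  omega

end Pool.Agent.Lib.MP_21a058_co.Lim3
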