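import Pool.Agent.Lib.MP_21a058_co.Lim3.Comp
import Pool.Agent.Lib.MP_21a058_co.Lim.NearP

/-! Every near-minimum cut is a disjoint union of few strong pieces of one laminar family, with
polynomial constants (MP_21a058_co). -/

set_option autoImplicit false
set_option linter.unusedSectionVars false
set_option linter.unusedVariables false

namespace Pool.Agent.Lib.MP_21a058_co.Lim3

open Finset
open Pool.Agent.Lib.MP_21a058_co.P Pool.Agent.Lib.MP_21a058_co.Every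
open Pool.Agent.Lib.MP_21a058_co.Lim (dl_eq_cut)
open scoped Classical

variable {V E : Type} [Fintype V] [Fintype E]

/-- the pieces of a laminar family, as a hypothesis -/
theorem near_pieces_cl (a b : E → V) (r : V) {w t tau lam u p : ℕ} (P : Fin w → Finset E)
    (N : Fin tau → Finset E) (hN : Trees a b N) (hNP : Disjoint (un N) (un P))
    (hlam : ∀ Y : Finset V, Y.Nonempty → Y ≠ univ → lam ≤ (cut a b Y \ un P).card)
    (hp : (p + 1) * (lam + p * u) < 2 * tau * p)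
    (hF1 : ∀ S : Finset (Finset V), (∀ X ∈ S, ∀ Y ∈ S, X ⊆ Y ∨ Y ⊆ X ∨ Disjoint X Y) →
      (∀ X ∈ S, X.Nonempty) → (∀ X ∈ S, X ≠ univ) →
      ∃ (L : Thin.Fam V) (B : Fin t → Finset E), Trees a b B ∧ un B ⊆ un P ∧
        (∀ i, Duo.TreeL L a b (B i)) ∧ ∀ Y ∈ S, ∃ Q : Finset (Finset V),
          (∀ Z ∈ Q, Z ∈ L.F ∧ Z ≠ univ ∧ Z.Nonempty ∧ Z ⊆ Y) ∧
          (∀ Z ∈ Q, ∀ Z' ∈ Q, Z ≠ Z' → Disjoint Z Z') ∧ (∀ x ∈ Y, ∃ Z ∈ Q, x ∈ Z) ∧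
          (w - t) * Q.card + t ≤ (un P ∩ cut a b Y).card) :
    ∃ (L : Thin.Fam V) (B : Fin t → Finset E), Trees a b B ∧ un B ⊆ un P ∧
      (∀ i, Duo.TreeL L a b (B i)) ∧ ∀ Y : Finset V, Y.Nonempty → r ∉ Y →
        (cut a b Y \ un P).card ≤ lam + u → ∃ Q : Finset (Finset V),
          (∀ Z ∈ Q, Z ∈ L.F ∧ Z ≠ univ ∧ Z.Nonempty ∧ Z ⊆ Y) ∧
          (∀ Z ∈ Q, ∀ Z' ∈ Q, Z ≠ Z' → Disjoint Z Z') ∧ Q.biUnion id = Y ∧
          (w - t) * Q.card ≤ 2 * p * (un P ∩ cut a b Y).card := by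
  obtain ⟨R, hR⟩ : ∃ R : Finset E, R = univ \ un P := ⟨_, rfl⟩
  have hdR : ∀ Y : Finset V, (Thin.dl a b R Y).card = (cut a b Y \ un P).card := by
    intro Y
    congr 1
    ext e
    rw [dl_eq_cut, hR, mem_inter, mem_sdiff, mem_sdiff]
    exact ⟨fun h => ⟨h.2, h.1.2⟩, fun h => ⟨⟨mem_univ _, h.2⟩, h.1⟩⟩
  have hTR : ∀ i, N i ⊆ R := by
    intro i e he
    rw [hR, mem_sdiff]
    exact ⟨mem_univ _, fun h => disjoint_left.1 hNP (mem_un.2 ⟨i, he⟩) h⟩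
  obtain ⟨NN, hNN⟩ : ∃ NN : Finset (Finset V), NN = univ.filter (fun Y : Finset V =>
      Y.Nonempty ∧ r ∉ Y ∧ (Thin.dl a b R Y).card ≤ lam + u) := ⟨_, rfl⟩
  have hNN' : ∀ Y ∈ NN, Y.Nonempty ∧ r ∉ Y ∧ (Thin.dl a b R Y).card ≤ lam + u := by
    intro Y hY
    rw [hNN] at hY
    exact (mem_filter.1 hY).2
  have hA1 := Thin.atomsN a b r R N hTR hN.2
    (fun i => Swap.sel_conn a b (hN.1 i).1) lam u p
    (fun X hX hX' => (hdR X).symm ▸ hlam X hX hX') hp NN hNN'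
  obtain ⟨LL, hL1, hL2, hL3⟩ := multi a b r (un P) NN p (fun Y hY => (hNN' Y hY).2.1)
    (fun Y hY => (hNN' Y hY).1) hA1
  obtain ⟨L, B, hB, hBP, hBL, hQ⟩ := hF1 LL hL2 (fun X hX => (hL1 X hX).1)
    (fun X hX h => (hL1 X hX).2 (h ▸ mem_univ r))
  refine ⟨L, B, hB, hBP, hBL, fun Y hY hrY hYd => ?_⟩
  obtain ⟨P0, hP0, hP1, hP2, hP3, hP4⟩ := hL3 Y (by
    rw [hNN]
    exact mem_filter.2 ⟨mem_univ _, hY, hrY, (hdR Y).symm ▸ hYd⟩)
  choose! QA q1 q2 q3 q4 using hQ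
  refine ⟨P0.biUnion QA, ?_, ?_, ?_, ?_⟩
  · intro Z hZ
    obtain ⟨A, hA, hZA⟩ := mem_biUnion.1 hZ
    obtain ⟨h1, h2, h3, h4⟩ := q1 A (hP0 hA) Z hZA
    refine ⟨h1, h2, h3, h4.trans ?_⟩
    rw [← hP3]
    exact fun x hx => mem_biUnion.2 ⟨A, hA, hx⟩
  · intro Z hZ Z' hZ' hne
    obtain ⟨A, hA, hZA⟩ := mem_biUnion.1 hZ
    obtain ⟨A', hA', hZA'⟩ := mem_biUnion.1 hZ'
    by_cases h : A = A'
    · subst h
      exact q2 A (hP0 hA) Z hZA Z' hZA' hne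
    · exact ((hP2 A hA A' hA' h).mono_left (q1 A (hP0 hA) Z hZA).2.2.2).mono_right
        (q1 A' (hP0 hA') Z' hZA').2.2.2
  · ext x
    rw [mem_biUnion]
    constructor
    · rintro ⟨Z, hZ, hx⟩
      obtain ⟨A, hA, hZA⟩ := mem_biUnion.1 hZ
      rw [← hP3]
      exact mem_biUnion.2 ⟨A, hA, (q1 A (hP0 hA) Z hZA).2.2.2 hx⟩
    · intro hx
      rw [← hP3] at hx
      obtain ⟨A, hA, hxA⟩ := mem_biUnion.1 hx
      obtain ⟨Z, hZ, hxZ⟩ := q3 A (hP0 hA) x hxA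
      exact ⟨Z, mem_biUnion.2 ⟨A, hA, hZ⟩, hxZ⟩
  · have h1 : (P0.biUnion QA).card ≤ ∑ A ∈ P0, (QA A).card := card_biUnion_le
    have h2 : (w - t) * ∑ A ∈ P0, (QA A).card ≤ ∑ A ∈ P0, (un P ∩ cut a b A).card := by
      rw [mul_sum]
      refine sum_le_sum fun A hA => ?_
      have := q4 A (hP0 hA)
      omega
    have h3 : ∑ A ∈ P0, (un P ∩ cut a b A).card ≤ 2 * (p * (un P ∩ cut a b Y).card) := by
      have h4 : ∑ A ∈ P0, (un P ∩ cut a b A).card = ∑ A ∈ P0, (Thin.dl a b (un P) A).card :=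
        sum_congr rfl fun A _ => by rw [dl_eq_cut]
      rw [h4, ← dl_eq_cut]
      exact hP4
    calc (w - t) * (P0.biUnion QA).card ≤ (w - t) * ∑ A ∈ P0, (QA A).card :=
          Nat.mul_le_mul_left _ h1
      _ ≤ 2 * (p * (un P ∩ cut a b Y).card) := h2.trans h3
      _ = 2 * p * (un P ∩ cut a b Y).card := (Nat.mul_assoc _ _ _).symm

/-- the same with the decidability instances of the statement -/
theorem near_pieces_of {V E : Type} [Fintype V] [iV : DecidableEq V] [Fintype E]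
    [iE : DecidableEq E] (a b : E → V) (r : V) {w t tau lam u p : ℕ} (P : Fin w → Finset E)
    (N : Fin tau → Finset E) (hN : Trees a b N) (hNP : Disjoint (un N) (un P))
    (hlam : ∀ Y : Finset V, Y.Nonempty → Y ≠ univ → lam ≤ (cut a b Y \ un P).card)
    (hp : (p + 1) * (lam + p * u) < 2 * tau * p)
    (hF1 : ∀ S : Finset (Finset V), (∀ X ∈ S, ∀ Y ∈ S, X ⊆ Y ∨ Y ⊆ X ∨ Disjoint X Y) →
      (∀ X ∈ S, X.Nonempty) → (∀ X ∈ S, X ≠ univ) →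
      ∃ (L : Thin.Fam V) (B : Fin t → Finset E), Trees a b B ∧ un B ⊆ un P ∧
        (∀ i, Duo.TreeL L a b (B i)) ∧ ∀ Y ∈ S, ∃ Q : Finset (Finset V),
          (∀ Z ∈ Q, Z ∈ L.F ∧ Z ≠ univ ∧ Z.Nonempty ∧ Z ⊆ Y) ∧
          (∀ Z ∈ Q, ∀ Z' ∈ Q, Z ≠ Z' → Disjoint Z Z') ∧ (∀ x ∈ Y, ∃ Z ∈ Q, x ∈ Z) ∧
          (w - t) * Q.card + t ≤ (un P ∩ cut a b Y).card) :
    ∃ (L : Thin.Fam V) (B : Fin t → Finset E), Trees a b B ∧ un B ⊆ un P ∧
      (∀ i, Duo.TreeL L a b (B i)) ∧ ∀ Y : Finset V, Y.Nonempty → r ∉ Y →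
        (cut a b Y \ un P).card ≤ lam + u → ∃ Q : Finset (Finset V),
          (∀ Z ∈ Q, Z ∈ L.F ∧ Z ≠ univ ∧ Z.Nonempty ∧ Z ⊆ Y) ∧
          (∀ Z ∈ Q, ∀ Z' ∈ Q, Z ≠ Z' → Disjoint Z Z') ∧ Q.biUnion id = Y ∧
          (w - t) * Q.card ≤ 2 * p * (un P ∩ cut a b Y).card := by
  obtain rfl : iV = fun x y => Classical.propDecidable (x = y) := Subsingleton.elim _ _
  obtain rfl : iE = fun x y => Classical.propDecidable (x = y) := Subsingleton.elim _ _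
  exact near_pieces_cl a b r P N hN hNP hlam hp hF1

end Pool.Agent.Lib.MP_21a058_co.Lim3
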