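import Pool.Agent.Lib.MP_21a058_co.Lim3.Sel
import Pool.Agent.Lib.MP_21a058_co.Lim.Rounds
import Pool.Agent.Lib.MP_21a058_co.Lim3.Consts

/-! MP_21a058_co, the limit theorem: the selection with the numbers of `Nums`. -/

set_option autoImplicit false

namespace Pool.Agent.Lib.MP_21a058_co.Lim3

open Finset
open Pool.Agent.Lib.MP_21a058_co.P Pool.Agent.Lib.MP_21a058_co.Every
open Pool.Agent.Lib.MP_21a058_co.Swap Pool.Agent.Lib.MP_21a058_co.Iter
open Pool.Agent.Lib.MP_21a058_co.Lim (SelAll)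

/-- the selection for every state -/
theorem selAll {n p mo A0 M E X Th C9 c H0 : ℕ} (hN : Nums n p mo A0 M E X Th C9 c H0)
    (H : ℕ) (hH : H0 ≤ H) : SelAll p (X - 1) Th M Th (5 * A0) c H := by
  intro V E' _ _ _ _ a b r s q tau lam P N hq hM hP hNt hNP hlam hp
  have hH1 : 1 ≤ H := by
    have := hN.hH0
    omega
  have hcl : c + 1 ≤ H := by
    have := hN.hH0
    omega
  have hmo := hN.mo_le hH
  have hTh := hN.hTh
  have h1 : 1 ≤ Th * H := Nat.mul_pos hTh hH1
  have h2 : 1 ≤ (X - 1 + 2) * H := Nat.mul_pos (by omega) hH1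
  have h3 := hN.rows (H := H) (t := s + c + (q + c)) hH (by omega)
  rw [hN.hmo] at hmo h3
  refine selAt (g := H) (h := H / M) (L := H) (C9 := C9) a b r (by omega) (by omega) rfl hmo h3
    (by have := hN.hc; omega) hcl hH1 hp ?_ P hP N hNt hNP hlam
  exact hN.sel_num (by omega) le_rfl

end Pool.Agent.Lib.MP_21a058_co.Lim3
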