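import Pool.Agent.Lib.MP_21a058_co.Lim.Query

/-! MP_21a058_co: the query with two different errors, `g` for the pieces and `h` for the
blocks. -/

set_option autoImplicit false
set_option linter.unusedSectionVars false

namespace Pool.Agent.Lib.MP_21a058_co.Lim3

open Finset
open Pool.Agent.Lib.MP_21a058_co.P Pool.Agent.Lib.MP_21a058_co.Every
open Pool.Agent.Lib.MP_21a058_co.Two Pool.Agent.Lib.MP_21a058_co.Duo
open Pool.Agent.Lib.MP_21a058_co.Lim (btq mem_btq query_count query_btw)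

variable {V E : Type} [Fintype V] [DecidableEq V] [Fintype E] [DecidableEq E] (a b : E → V)

/-- the numbers -/
theorem query_num {t σ g h L P x y β γ cov nb : ℕ} (hσ : σ ≤ t)
    (h1 : t * (x + 2 * β) ≤ σ * (y + 2 * γ) + g * t * P)
    (h2 : σ * cov ≤ t * β + h * t * nb) (h3 : γ ≤ cov + L * P) (h4 : L * nb ≤ t * P) :
    L * (t * x) ≤ L * (σ * y) + t * P * (2 * L * L + L * g + 2 * h * t) := by
  have e1 : σ * γ ≤ σ * cov + σ * (L * P) := by
    rw [← mul_add]
    exact Nat.mul_le_mul_left _ h3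
  have e2 : σ * (L * P) ≤ t * (L * P) := Nat.mul_le_mul_right _ hσ
  have e3 : t * x ≤ σ * y + 2 * (h * t * nb) + 2 * (t * (L * P)) + g * t * P := by
    nlinarith
  have e4 : L * (t * x) ≤ L * (σ * y + 2 * (h * t * nb) + 2 * (t * (L * P)) + g * t * P) :=
    Nat.mul_le_mul_left _ e3
  have e5 : 2 * (h * t) * (L * nb) ≤ 2 * (h * t) * (t * P) := Nat.mul_le_mul_left _ h4
  calc L * (t * x) ≤ L * (σ * y + 2 * (h * t * nb) + 2 * (t * (L * P)) + g * t * P) := e4
    _ = L * (σ * y) + 2 * (h * t) * (L * nb) + t * P * (2 * L * L + L * g) := by ring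
    _ ≤ L * (σ * y) + 2 * (h * t) * (t * P) + t * P * (2 * L * L + L * g) := by omega
    _ = L * (σ * y) + t * P * (2 * L * L + L * g + 2 * h * t) := by ring

/-- **the query** -/
theorem query {t : ℕ} (T : Fin t → Finset E) (hT : Trees a b T) (X : Finset E)
    (Y : Finset V) (Q : Finset (Finset V)) (hQd : ∀ A ∈ Q, ∀ B ∈ Q, A ≠ B → Disjoint A B)
    (hQY : Q.biUnion id = Y) (hQT : ∀ Z ∈ Q, ∀ i, (T i ∩ ins a b Z).card + 1 = Z.card)
    (σ g h L : ℕ) (hσ : σ ≤ t)
    (hrow : ∀ Z ∈ Q, t * (X ∩ cut a b Z).card ≤ σ * (un T ∩ cut a b Z).card + g * t)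
    (Bs : Finset (Finset E)) (hBd : ∀ β ∈ Bs, ∀ γ ∈ Bs, β ≠ γ → Disjoint β γ)
    (hBs : ∀ β ∈ Bs, β ⊆ un T ∩ ins a b Y ∧ ∀ Z ∈ Q, Disjoint β (ins a b Z))
    (hBL : ∀ β ∈ Bs, L ≤ β.card)
    (hcov : ((un T ∩ ins a b Y) \ (Q.biUnion (ins a b) ∪ Bs.biUnion id)).card ≤ L * Q.card)
    (hblk : ∀ β ∈ Bs, σ * β.card ≤ t * (X ∩ β).card + h * t) :
    L * (t * (X ∩ cut a b Y).card) ≤ L * (σ * (un T ∩ cut a b Y).card) +
      t * Q.card * (2 * L * L + L * g + 2 * h * t) := by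
  classical
  have h1 := query_count a b hQd hQY X
  have h2 := query_count a b hQd hQY (un T)
  have h3 := query_btw a b T hT hQd hQY hQT
  have h4 : t * ∑ Z ∈ Q, (X ∩ cut a b Z).card ≤
      σ * ∑ Z ∈ Q, (un T ∩ cut a b Z).card + g * t * Q.card := by
    have k1 := sum_le_sum hrow
    rw [sum_add_distrib, ← mul_sum, ← mul_sum, sum_const, smul_eq_mul] at k1
    rwa [mul_comm Q.card] at k1
  rw [h1, h2] at h4
  -- the blocks
  have hcard : (Bs.biUnion id).card = ∑ β ∈ Bs, β.card := by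
    rw [card_biUnion]
    · rfl
    · intro β hβ γ hγ hne
      exact hBd β hβ γ hγ hne
  have hXc : (X ∩ Bs.biUnion id).card = ∑ β ∈ Bs, (X ∩ β).card := by
    rw [inter_biUnion, card_biUnion]
    · rfl
    · intro β hβ γ hγ hne
      exact (hBd β hβ γ hγ hne).mono inter_subset_right inter_subset_right
  have hsub : Bs.biUnion id ⊆ un T ∩ btq a b Q Y := by
    intro e he
    obtain ⟨β, hβ, h5⟩ := mem_biUnion.1 he
    obtain ⟨k1, k2⟩ := hBs β hβ
    have k3 := mem_inter.1 (k1 h5)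
    refine mem_inter.2 ⟨k3.1, (mem_btq a b).2 ⟨(mem_ins a b).1 k3.2, fun Z hZ k4 => ?_⟩⟩
    exact disjoint_left.1 (k2 Z hZ) h5 ((mem_ins a b).2 k4)
  have h5 : σ * (Bs.biUnion id).card ≤ t * (X ∩ btq a b Q Y).card + h * t * Bs.card := by
    have k1 := sum_le_sum hblk
    rw [sum_add_distrib, ← mul_sum, ← mul_sum, sum_const, smul_eq_mul, ← hcard, ← hXc,
      mul_comm Bs.card] at k1
    refine k1.trans (Nat.add_le_add_right (Nat.mul_le_mul_left _ (card_le_card ?_)) _)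
    intro e he
    rw [mem_inter] at he ⊢
    exact ⟨he.1, (mem_inter.1 (hsub he.2)).2⟩
  have h6 : (un T ∩ btq a b Q Y).card ≤ (Bs.biUnion id).card + L * Q.card := by
    have k1 : un T ∩ btq a b Q Y ⊆ Bs.biUnion id ∪
        (un T ∩ ins a b Y) \ (Q.biUnion (ins a b) ∪ Bs.biUnion id) := by
      intro e he
      obtain ⟨k2, k3⟩ := mem_inter.1 he
      obtain ⟨k4, k5⟩ := mem_sdiff.1 k3
      by_cases k6 : e ∈ Bs.biUnion id
      · exact mem_union_left _ k6
      · refine mem_union_right _ (mem_sdiff.2 ⟨mem_inter.2 ⟨k2, k4⟩, ?_⟩)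
        rw [mem_union]
        rintro (k7 | k7)
        · exact k5 k7
        · exact k6 k7
    have k2 := card_le_card k1
    have k3 := card_union_le (Bs.biUnion id)
      ((un T ∩ ins a b Y) \ (Q.biUnion (ins a b) ∪ Bs.biUnion id))
    omega
  have h7 : L * Bs.card ≤ t * Q.card := by
    have k1 : ∑ _β ∈ Bs, L ≤ ∑ β ∈ Bs, β.card := sum_le_sum hBL
    rw [sum_const, smul_eq_mul, ← hcard] at k1
    have k2 := card_le_card hsub
    rw [mul_comm]
    omega
  exact query_num hσ h4 h5 h6 h7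

end Pool.Agent.Lib.MP_21a058_co.Lim3
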